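import Mathlib

set_option autoImplicit false

open scoped TensorProduct

namespace Pool.Agent.Results.MP_25d2c4_an.SymmetricASQ

section Definitions

/-- Almost square Banach spaces. -/
def IsASQ (X : Type*) [NormedAddCommGroup X] : Prop :=
  ∀ (k : ℕ) (x : Fin k → X), (∀ i, ‖x i‖ = 1) → ∀ ε : ℝ, 0 < ε →
    ∃ y : X, ‖y‖ = 1 ∧ ∀ i, ‖x i + y‖ ≤ 1 + ε

variable (𝕜 : Type*) [RCLike 𝕜] (N : ℕ) (X : Type*) [NormedAddCommGroup X] [NormedSpace 𝕜 X]

/-- The functional `φ ⊗ ⋯ ⊗ φ` on the `N`-fold algebraic tensor product, determined by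
`x₁ ⊗ ⋯ ⊗ x_N ↦ φ(x₁) ⋯ φ(x_N)`. -/
noncomputable def tensorPow (φ : StrongDual 𝕜 X) : (⨂[𝕜] _i : Fin N, X) →ₗ[𝕜] 𝕜 :=
  PiTensorProduct.lift
    ((MultilinearMap.mkPiAlgebra 𝕜 (Fin N) 𝕜).compLinearMap fun _ => (φ : X →ₗ[𝕜] 𝕜))

/-- The subspace `⊗_{s,N} X` of the `N`-fold algebraic tensor product spanned by the elements
`x ⊗ ⋯ ⊗ x`. -/
def symSubmodule : Submodule 𝕜 (⨂[𝕜] _i : Fin N, X) :=
  Submodule.span 𝕜 (Set.range fun x : X => PiTensorProduct.tprod 𝕜 fun _ : Fin N => x)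

/-- `⊗_{s,N} X` as a type, to be equipped with the symmetric injective norm. -/
def SymTensor : Type _ := symSubmodule 𝕜 N X

noncomputable instance : AddCommGroup (SymTensor 𝕜 N X) :=
  (symSubmodule 𝕜 N X).addCommGroup

noncomputable instance : Module 𝕜 (SymTensor 𝕜 N X) :=
  (symSubmodule 𝕜 N X).module

/-- The symmetric injective norm: the supremum of `|⟨φ ⊗ ⋯ ⊗ φ, u⟩|` over the closed unit ball of
the dual space. -/
noncomputable instance : Norm (SymTensor 𝕜 N X) :=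
  ⟨fun u => ⨆ φ : Metric.closedBall (0 : StrongDual 𝕜 X) 1, ‖tensorPow 𝕜 N X φ.1 u.1‖⟩

end Definitions

section Basic

variable {𝕜 : Type*} [RCLike 𝕜] {N : ℕ} {X : Type*} [NormedAddCommGroup X] [NormedSpace 𝕜 X]

lemma tensorPow_tprod (φ : StrongDual 𝕜 X) (x : X) :
    tensorPow 𝕜 N X φ (PiTensorProduct.tprod 𝕜 fun _ : Fin N => x) = φ x ^ N := by
  unfold tensorPow
  rw [PiTensorProduct.lift.tprod]
  simp

lemma tensorPow_smul (c : 𝕜) (φ : StrongDual 𝕜 X) (u : SymTensor 𝕜 N X) :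
    tensorPow 𝕜 N X (c • φ) u.1 = c ^ N * tensorPow 𝕜 N X φ u.1 := by
  have h : ∀ v ∈ symSubmodule 𝕜 N X,
      tensorPow 𝕜 N X (c • φ) v = c ^ N * tensorPow 𝕜 N X φ v := by
    intro v hv
    unfold symSubmodule at hv
    induction hv using Submodule.span_induction with
    | mem v hv =>
      obtain ⟨x, rfl⟩ := hv
      simp only [tensorPow_tprod]
      simp [mul_pow]
    | zero => simp
    | add v w _ _ h1 h2 => rw [map_add, map_add, h1, h2]; ring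
    | smul a v _ h1 => rw [map_smul, map_smul, h1]; simp only [smul_eq_mul]; ring
  exact h u.1 u.2

lemma bdd (u : SymTensor 𝕜 N X) :
    BddAbove (Set.range fun φ : Metric.closedBall (0 : StrongDual 𝕜 X) 1 =>
      ‖tensorPow 𝕜 N X φ.1 u.1‖) := by
  have h : ∀ v ∈ symSubmodule 𝕜 N X, ∃ C : ℝ, ∀ φ : StrongDual 𝕜 X, ‖φ‖ ≤ 1 →
      ‖tensorPow 𝕜 N X φ v‖ ≤ C := by
    intro v hv
    unfold symSubmodule at hv
    induction hv using Submodule.span_induction with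
    | mem v hv =>
      obtain ⟨x, rfl⟩ := hv
      refine ⟨‖x‖ ^ N, fun φ hφ => ?_⟩
      simp only [tensorPow_tprod]
      rw [norm_pow]
      have h1 : ‖φ x‖ ≤ ‖x‖ := by
        refine (φ.le_opNorm x).trans ?_
        calc ‖φ‖ * ‖x‖ ≤ 1 * ‖x‖ := by gcongr
          _ = ‖x‖ := one_mul _
      gcongr
    | zero => exact ⟨0, fun φ _ => by simp⟩
    | add v w _ _ h1 h2 =>
      obtain ⟨C1, h1⟩ := h1
      obtain ⟨C2, h2⟩ := h2
      refine ⟨C1 + C2, fun φ hφ => ?_⟩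
      rw [map_add]
      exact (norm_add_le _ _).trans (add_le_add (h1 φ hφ) (h2 φ hφ))
    | smul a v _ h1 =>
      obtain ⟨C1, h1⟩ := h1
      refine ⟨‖a‖ * C1, fun φ hφ => ?_⟩
      rw [map_smul, norm_smul]
      exact mul_le_mul_of_nonneg_left (h1 φ hφ) (norm_nonneg _)
  obtain ⟨C, hC⟩ := h u.1 u.2
  refine ⟨C, ?_⟩
  rintro _ ⟨φ, rfl⟩
  exact hC φ.1 (mem_closedBall_zero_iff.1 φ.2)

lemma norm_def (u : SymTensor 𝕜 N X) :
    ‖u‖ = ⨆ φ : Metric.closedBall (0 : StrongDual 𝕜 X) 1, ‖tensorPow 𝕜 N X φ.1 u.1‖ := rfl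

instance : Nonempty (Metric.closedBall (0 : StrongDual 𝕜 X) 1) := ⟨⟨0, by simp⟩⟩

lemma le_norm (u : SymTensor 𝕜 N X) (φ : StrongDual 𝕜 X) (hφ : ‖φ‖ ≤ 1) :
    ‖tensorPow 𝕜 N X φ u.1‖ ≤ ‖u‖ :=
  le_ciSup (bdd u) (⟨φ, by simpa using hφ⟩ : Metric.closedBall (0 : StrongDual 𝕜 X) 1)

lemma norm_le (u : SymTensor 𝕜 N X) (C : ℝ)
    (h : ∀ φ : StrongDual 𝕜 X, ‖φ‖ ≤ 1 → ‖tensorPow 𝕜 N X φ u.1‖ ≤ C) : ‖u‖ ≤ C :=
  ciSup_le fun φ => h φ.1 (mem_closedBall_zero_iff.1 φ.2)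

lemma norm_core : SeminormedSpace.Core 𝕜 (SymTensor 𝕜 N X) where
  norm_nonneg u := (norm_nonneg _).trans (le_norm u 0 (by simp))
  norm_smul c u := by
    rw [norm_def, norm_def, Real.mul_iSup_of_nonneg (norm_nonneg c)]
    congr 1
    funext φ
    have : (c • u : SymTensor 𝕜 N X).1 = c • u.1 := rfl
    rw [this, map_smul, norm_smul]
  norm_triangle u v := by
    apply norm_le
    intro φ hφ
    have : (u + v : SymTensor 𝕜 N X).1 = u.1 + v.1 := rfl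
    rw [this, map_add]
    exact (norm_add_le _ _).trans (add_le_add (le_norm u φ hφ) (le_norm v φ hφ))

end Basic

section Definitions

variable (𝕜 : Type*) [RCLike 𝕜] (N : ℕ) (X : Type*) [NormedAddCommGroup X] [NormedSpace 𝕜 X]

noncomputable instance : SeminormedAddCommGroup (SymTensor 𝕜 N X) :=
  SeminormedAddCommGroup.ofCore (𝕜 := 𝕜) norm_core

/-- The symmetric injective tensor product: the completion of `⊗_{s,N} X` under the symmetric
injective norm. -/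
abbrev SymInjTensor : Type _ := UniformSpace.Completion (SymTensor 𝕜 N X)

end Definitions

section Proof

variable {𝕜 : Type*} [RCLike 𝕜] {N : ℕ} {X : Type*} [NormedAddCommGroup X] [NormedSpace 𝕜 X]

lemma tensorPow_le (φ : StrongDual 𝕜 X) (u : SymTensor 𝕜 N X) :
    ‖tensorPow 𝕜 N X φ u.1‖ ≤ ‖φ‖ ^ N * ‖u‖ := by
  have h1 : φ = (‖φ‖ : 𝕜) • ((‖φ‖ : 𝕜)⁻¹ • φ) := by
    rcases eq_or_ne φ 0 with h | h
    · ext x
      simp [h]
    · rw [smul_smul, mul_inv_cancel₀, one_smul]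
      simpa using h
  have h2 : ‖(‖φ‖ : 𝕜)⁻¹ • φ‖ ≤ 1 := by
    rw [norm_smul, norm_inv, RCLike.norm_ofReal, abs_norm]
    rcases eq_or_ne φ 0 with h | h
    · simp [h]
    · rw [inv_mul_cancel₀ (by simpa using h)]
  conv_lhs => rw [h1]
  rw [tensorPow_smul, norm_mul, norm_pow, RCLike.norm_ofReal, abs_norm]
  gcongr
  exact le_norm u _ h2

/-- elements are carried by finite dimensional subspaces -/
lemma exists_findim (v : ⨂[𝕜] _i : Fin N, X) (hv : v ∈ symSubmodule 𝕜 N X) :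
    ∃ E : Submodule 𝕜 X, FiniteDimensional 𝕜 E ∧ ∀ φ ψ : StrongDual 𝕜 X, (∀ e ∈ E, φ e = ψ e) →
      tensorPow 𝕜 N X φ v = tensorPow 𝕜 N X ψ v := by
  unfold symSubmodule at hv
  induction hv using Submodule.span_induction with
  | mem v hv =>
    obtain ⟨x, rfl⟩ := hv
    refine ⟨Submodule.span 𝕜 {x}, inferInstance, fun φ ψ h => ?_⟩
    simp only [tensorPow_tprod]
    rw [h x (Submodule.mem_span_singleton_self x)]
  | zero => exact ⟨⊥, inferInstance, fun φ ψ _ => by simp⟩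
  | add v w _ _ h1 h2 =>
    obtain ⟨E, hE, h1⟩ := h1
    obtain ⟨F, hF, h2⟩ := h2
    refine ⟨E ⊔ F, inferInstance, fun φ ψ h => ?_⟩
    rw [map_add, map_add, h1 φ ψ fun e he => h e (Submodule.mem_sup_left he),
      h2 φ ψ fun e he => h e (Submodule.mem_sup_right he)]
  | smul a v _ h1 =>
    obtain ⟨E, hE, h1⟩ := h1
    exact ⟨E, hE, fun φ ψ h => by rw [map_smul, map_smul, h1 φ ψ h]⟩

lemma exists_findim_family {k : ℕ} (u : Fin k → SymTensor 𝕜 N X) :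
    ∃ E : Submodule 𝕜 X, FiniteDimensional 𝕜 E ∧ ∀ i, ∀ φ ψ : StrongDual 𝕜 X,
      (∀ e ∈ E, φ e = ψ e) → tensorPow 𝕜 N X φ (u i).1 = tensorPow 𝕜 N X ψ (u i).1 := by
  choose E hE h using fun i => exists_findim (u i).1 (u i).2
  refine ⟨⨆ i, E i, ?_, fun i φ ψ hφ => ?_⟩
  · have := hE
    exact Submodule.finiteDimensional_iSup E
  · exact h i φ ψ fun e he => hφ e (Submodule.mem_iSup_of_mem i he)

lemma IsASQ.finset (hX : IsASQ X) (t : Finset X) (ht : ∀ x ∈ t, ‖x‖ = 1) (ε : ℝ) (hε : 0 < ε) :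
    ∃ y : X, ‖y‖ = 1 ∧ ∀ x ∈ t, ‖x + y‖ ≤ 1 + ε := by
  obtain ⟨y, hy, h⟩ := hX t.card (fun i => (t.equivFin.symm i : X))
    (fun i => ht _ (t.equivFin.symm i).2) ε hε
  refine ⟨y, hy, fun x hx => ?_⟩
  have := h (t.equivFin ⟨x, hx⟩)
  simpa using this

/-- From the definition to finite dimensional subspaces. -/
lemma IsASQ.findim (hX : IsASQ X) (E : Submodule 𝕜 X) (hE : FiniteDimensional 𝕜 E) (δ : ℝ)
    (hδ : 0 < δ) : ∃ v : X, ‖v‖ = 1 ∧ ∀ e ∈ E, ‖e‖ ≤ 1 → ‖e + v‖ ≤ 1 + δ := by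
  classical
  have hcomp : IsCompact (Metric.sphere (0 : E) 1) := by
    have : ProperSpace E := FiniteDimensional.proper 𝕜 E
    exact isCompact_sphere _ _
  obtain ⟨t, htS, htfin, htcov⟩ := hcomp.finite_cover_balls (show 0 < δ / 2 by positivity)
  obtain ⟨v, hv, hvt⟩ := hX.finset (htfin.toFinset.image (fun e : E => (e : X)))
    (by
      intro x hx
      rw [Finset.mem_image] at hx
      obtain ⟨e, he, rfl⟩ := hx
      have := htS ((Set.Finite.mem_toFinset _).1 he)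
      rw [mem_sphere_zero_iff_norm] at this
      exact this) (δ / 2) (by positivity)
  refine ⟨v, hv, ?_⟩
  -- unit vectors
  have hunit : ∀ e ∈ E, ‖e‖ = 1 → ‖e + v‖ ≤ 1 + δ := by
    intro e he hen
    have h1 : (⟨e, he⟩ : E) ∈ Metric.sphere (0 : E) 1 := by
      rw [mem_sphere_zero_iff_norm]; exact hen
    obtain ⟨f, hf, hfe⟩ := Set.mem_iUnion₂.1 (htcov h1)
    rw [Metric.mem_ball, dist_eq_norm] at hfe
    have h2 := hvt f (Finset.mem_image_of_mem _ ((Set.Finite.mem_toFinset _).2 hf))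
    have h3 : e + v = (e - (f : X)) + ((f : X) + v) := by abel
    rw [h3]
    have h4 := norm_add_le (e - (f : X)) ((f : X) + v)
    have h5 : ‖e - (f : X)‖ < δ / 2 := hfe
    linarith
  intro e he hen
  rcases eq_or_ne e 0 with h0 | h0
  · rw [h0, zero_add, hv]; linarith
  · have hpos : 0 < ‖e‖ := norm_pos_iff.2 h0
    set e' : X := ((‖e‖ : 𝕜)⁻¹) • e with he'
    have hn' : ‖e'‖ = 1 := by
      rw [he', norm_smul, norm_inv, RCLike.norm_ofReal, abs_norm]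
      field_simp
    have h1 := hunit e' (E.smul_mem _ he) hn'
    have h2 : e + v = (‖e‖ : 𝕜) • (e' + v) + ((1 - ‖e‖ : ℝ) : 𝕜) • v := by
      rw [smul_add, he', smul_smul, mul_inv_cancel₀ (by simpa using h0), one_smul]
      push_cast
      rw [sub_smul, one_smul]
      abel
    rw [h2]
    refine (norm_add_le _ _).trans ?_
    rw [norm_smul, norm_smul, RCLike.norm_ofReal, RCLike.norm_ofReal, abs_norm,
      abs_of_nonneg (by linarith), hv]
    nlinarith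

lemma exists_unimodular (z : 𝕜) : ∃ c : 𝕜, ‖c‖ = 1 ∧ c * z = (‖z‖ : 𝕜) := by
  rcases eq_or_ne z 0 with h | h
  · exact ⟨1, by simp, by simp [h]⟩
  · refine ⟨(‖z‖ : 𝕜) * z⁻¹, ?_, ?_⟩
    · rw [norm_mul, norm_inv, RCLike.norm_ofReal, abs_norm, mul_inv_cancel₀ (by simpa using h)]
    · rw [mul_assoc, inv_mul_cancel₀ h, mul_one]

/-- The key estimate. -/
lemma key (hN : N ≠ 0) (u : SymTensor 𝕜 N X) (E : Submodule 𝕜 X)
    (hE : ∀ φ ψ : StrongDual 𝕜 X, (∀ e ∈ E, φ e = ψ e) →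
      tensorPow 𝕜 N X φ u.1 = tensorPow 𝕜 N X ψ u.1) (v : X) (hv : ‖v‖ = 1) (δ : ℝ)
    (hvE : ∀ e ∈ E, ‖e‖ ≤ 1 → ‖e + v‖ ≤ 1 + δ) (φ : StrongDual 𝕜 X) (hφ : ‖φ‖ ≤ 1) :
    ‖tensorPow 𝕜 N X φ u.1 + φ v ^ N‖ ≤ max ‖u‖ 1 * (1 + δ) ^ N := by
  have hφv : ‖φ v‖ ≤ 1 := by
    refine (φ.le_opNorm v).trans ?_
    rw [hv, mul_one]; exact hφ
  have hδ : 0 ≤ δ := by
    have := hvE 0 E.zero_mem (by simp)
    rw [zero_add, hv] at this
    linarith
  -- the restriction has small norm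
  set f : StrongDual 𝕜 E := φ.comp E.subtypeL with hf
  have hfn : ‖f‖ ≤ 1 + δ - ‖φ v‖ := by
    apply ContinuousLinearMap.opNorm_le_bound _ (by linarith)
    intro e
    rcases eq_or_ne e 0 with h0 | h0
    · simp [h0]
    · have hpos : 0 < ‖e‖ := norm_pos_iff.2 h0
      obtain ⟨c, hc, hcz⟩ := exists_unimodular (φ (e : X))
      obtain ⟨d, hd, hdz⟩ := exists_unimodular (φ v)
      -- consider `d⁻¹ c e / ‖e‖ + v`
      have h1 := hvE ((d⁻¹ * c * (‖e‖ : 𝕜)⁻¹) • (e : X)) (E.smul_mem _ e.2) (by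
        rw [norm_smul, norm_mul, norm_mul, norm_inv, hd, hc, norm_inv, RCLike.norm_ofReal, abs_norm]
        have : ‖(e : X)‖ = ‖e‖ := rfl
        rw [this]
        field_simp
        exact le_rfl)
      have h2 : ‖φ ((d⁻¹ * c * (‖e‖ : 𝕜)⁻¹) • (e : X) + v)‖ ≤ 1 + δ := by
        refine (φ.le_opNorm _).trans ?_
        calc ‖φ‖ * ‖(d⁻¹ * c * (‖e‖ : 𝕜)⁻¹) • (e : X) + v‖ ≤ 1 * (1 + δ) := by
              apply mul_le_mul hφ h1 (norm_nonneg _) zero_le_one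
          _ = 1 + δ := one_mul _
      have hd0 : d ≠ 0 := by
        intro h; rw [h, norm_zero] at hd; exact zero_ne_one hd
      have h3 : ‖φ ((d⁻¹ * c * (‖e‖ : 𝕜)⁻¹) • (e : X) + v)‖ = ‖φ (e : X)‖ * ‖e‖⁻¹ + ‖φ v‖ := by
        have e1 : φ ((d⁻¹ * c * (‖e‖ : 𝕜)⁻¹) • (e : X) + v) =
            d⁻¹ * ((‖φ (e : X)‖ * ‖e‖⁻¹ + ‖φ v‖ : ℝ) : 𝕜) := by
          have e0 : ((‖φ (e : X)‖ * ‖e‖⁻¹ + ‖φ v‖ : ℝ) : 𝕜) =
              (‖φ (e : X)‖ : 𝕜) * (‖e‖ : 𝕜)⁻¹ + (‖φ v‖ : 𝕜) := by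
            push_cast; rfl
          rw [map_add, map_smul, smul_eq_mul, e0, ← hcz, ← hdz]
          field_simp
        rw [e1, norm_mul, norm_inv, hd, RCLike.norm_ofReal, abs_of_nonneg (by positivity)]
        simp
      rw [h3] at h2
      have h4 : ‖φ (e : X)‖ * ‖e‖⁻¹ ≤ 1 + δ - ‖φ v‖ := by linarith
      rw [← div_eq_mul_inv, div_le_iff₀ hpos] at h4
      exact h4
  obtain ⟨ψ, hψ, hψn⟩ := exists_extension_norm_eq E f
  have h1 : tensorPow 𝕜 N X φ u.1 = tensorPow 𝕜 N X ψ u.1 := by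
    apply hE
    intro e he
    exact (hψ ⟨e, he⟩).symm
  have h2 : ‖tensorPow 𝕜 N X φ u.1‖ ≤ ‖f‖ ^ N * ‖u‖ := by
    rw [h1, ← hψn]; exact tensorPow_le ψ u
  have hM1 : ‖u‖ ≤ max ‖u‖ 1 := le_max_left _ _
  have hM2 : 1 ≤ max ‖u‖ 1 := le_max_right _ _
  have hf0 : 0 ≤ ‖f‖ := norm_nonneg _
  have hv0 : 0 ≤ ‖φ v‖ := norm_nonneg _
  calc ‖tensorPow 𝕜 N X φ u.1 + φ v ^ N‖ ≤ ‖tensorPow 𝕜 N X φ u.1‖ + ‖φ v ^ N‖ := norm_add_le _ _
    _ ≤ ‖f‖ ^ N * ‖u‖ + ‖φ v‖ ^ N := by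
        rw [norm_pow]
        linarith
    _ ≤ max ‖u‖ 1 * (‖f‖ ^ N + ‖φ v‖ ^ N) := by
        have e1 : ‖f‖ ^ N * ‖u‖ ≤ ‖f‖ ^ N * max ‖u‖ 1 := by gcongr
        have e2 : ‖φ v‖ ^ N ≤ ‖φ v‖ ^ N * max ‖u‖ 1 := le_mul_of_one_le_right (by positivity) hM2
        linarith
    _ ≤ max ‖u‖ 1 * (‖f‖ + ‖φ v‖) ^ N := by
        gcongr
        exact pow_add_pow_le hf0 hv0 hN
    _ ≤ max ‖u‖ 1 * (1 + δ) ^ N := by
        have e1 : (‖f‖ + ‖φ v‖) ^ N ≤ (1 + δ) ^ N :=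
          pow_le_pow_left₀ (by positivity) (by linarith) N
        gcongr

lemma exists_small (N : ℕ) (ε : ℝ) (hε : 0 < ε) : ∃ δ : ℝ, 0 < δ ∧ (1 + δ) ^ N ≤ 1 + ε := by
  have h : Filter.Tendsto (fun δ : ℝ => (1 + δ) ^ N) (nhds 0) (nhds ((1 + 0) ^ N)) :=
    ((continuous_const.add continuous_id).pow N).tendsto _
  rw [add_zero, one_pow] at h
  have h2 : ∀ᶠ δ in nhds (0 : ℝ), (1 + δ) ^ N < 1 + ε := h.eventually (gt_mem_nhds (by linarith))
  obtain ⟨ρ, hρ, hball⟩ := Metric.eventually_nhds_iff.1 h2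
  refine ⟨ρ / 2, by positivity, (hball ?_).le⟩
  rw [Real.dist_eq, sub_zero, abs_of_pos (by positivity)]
  linarith

end Proof

/-- **Theorem.** If `X` is an almost square Banach space (real or complex), then for every
`N ≥ 1` the symmetric injective tensor product of `N` copies of `X` is almost square. -/
theorem result (𝕜 : Type*) [RCLike 𝕜] (X : Type*) [NormedAddCommGroup X] [NormedSpace 𝕜 X]
    [CompleteSpace X] (hX : IsASQ X) (N : ℕ) (hN : 1 ≤ N) : IsASQ (SymInjTensor 𝕜 N X) := by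
  intro k x hx ε hε
  -- approximate
  have happ : ∀ i, ∃ u : SymTensor 𝕜 N X, ‖x i - (u : SymInjTensor 𝕜 N X)‖ < ε / 4 := by
    intro i
    have h1 := (UniformSpace.Completion.denseRange_coe (α := SymTensor 𝕜 N X)) (x i)
    obtain ⟨_, ⟨u, rfl⟩, hu⟩ := Metric.mem_closure_iff.1 h1 (ε / 4) (by positivity)
    exact ⟨u, by rwa [dist_eq_norm] at hu⟩
  choose u hu using happ
  have hun : ∀ i, ‖u i‖ ≤ 1 + ε / 4 := by
    intro i
    have h1 : ‖(u i : SymInjTensor 𝕜 N X)‖ ≤ ‖x i‖ + ‖x i - (u i : SymInjTensor 𝕜 N X)‖ := by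
      have := norm_sub_le (x i) (x i - (u i : SymInjTensor 𝕜 N X))
      rwa [sub_sub_cancel] at this
    rw [UniformSpace.Completion.norm_coe, hx i] at h1
    linarith [hu i]
  obtain ⟨E, hE, hEu⟩ := exists_findim_family u
  obtain ⟨δ, hδ, hδN⟩ := exists_small N (ε / 4 / (1 + ε / 4)) (by positivity)
  obtain ⟨v, hv, hvE⟩ := hX.findim E hE δ hδ
  -- the tensor power of `v`
  set w : SymTensor 𝕜 N X := ⟨PiTensorProduct.tprod 𝕜 fun _ : Fin N => v,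
    Submodule.subset_span ⟨v, rfl⟩⟩ with hw
  have hwφ : ∀ φ : StrongDual 𝕜 X, tensorPow 𝕜 N X φ w.1 = φ v ^ N := fun φ =>
    tensorPow_tprod φ v
  have hwn : ‖w‖ = 1 := by
    apply le_antisymm
    · apply norm_le
      intro φ hφ
      rw [hwφ, norm_pow]
      have h1 : ‖φ v‖ ≤ 1 := by
        refine (φ.le_opNorm v).trans ?_
        rw [hv, mul_one]; exact hφ
      exact pow_le_one₀ (norm_nonneg _) h1
    · obtain ⟨φ, hφ, hφv⟩ := exists_dual_vector'' 𝕜 v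
      have h1 := le_norm w φ hφ
      rw [hwφ, hφv, hv] at h1
      simpa using h1
  refine ⟨(w : SymInjTensor 𝕜 N X), by rw [UniformSpace.Completion.norm_coe, hwn], fun i => ?_⟩
  have h1 : ‖u i + w‖ ≤ 1 + ε / 2 := by
    apply norm_le
    intro φ hφ
    have h2 := key (by omega) (u i) E (hEu i) v hv δ hvE φ hφ
    have h3 : (u i + w : SymTensor 𝕜 N X).1 = (u i).1 + w.1 := rfl
    rw [h3, map_add, hwφ]
    refine h2.trans ?_
    have h4 : max ‖u i‖ 1 ≤ 1 + ε / 4 := max_le (hun i) (by linarith)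
    calc max ‖u i‖ 1 * (1 + δ) ^ N ≤ (1 + ε / 4) * (1 + ε / 4 / (1 + ε / 4)) := by
          apply mul_le_mul h4 hδN (by positivity) (by positivity)
      _ = 1 + ε / 2 := by field_simp; ring
  have h2 : x i + (w : SymInjTensor 𝕜 N X) = (x i - (u i : SymInjTensor 𝕜 N X)) +
      ((u i + w : SymTensor 𝕜 N X) : SymInjTensor 𝕜 N X) := by
    rw [UniformSpace.Completion.coe_add]; abel
  rw [h2]
  refine (norm_add_le _ _).trans ?_
  rw [UniformSpace.Completion.norm_coe]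
  linarith [hu i]

end Pool.Agent.Results.MP_25d2c4_an.SymmetricASQ
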